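import Pool.Agent.R223.RX.Many

/-!
# Powers of the Beurling transform on all angular frequencies `k ≠ 2 n`

For every `p ≥ 2`, every `n ≥ 1` and every integer `k ≠ 2 n` the inequality of the question holds
for the functions `f (r e^{iθ}) = e^{i k θ} φ(r)`, and for sums of `N` such functions (`N` arbitrary
frequencies, none equal to `2 n`) it holds for all `p ≥ 1 + 13 N / 2`, uniformly in `n`.
-/

set_option autoImplicit false

open MeasureTheory

namespace Pool.Agent.Results.MP_3dd6d4_an.AllButOneFrequency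

/-- The `n`-th power of the Beurling transform: the Fourier multiplier with symbol
`(conj ξ / ξ) ^ n`, in the literal form of the frozen statement. -/
noncomputable def T (n : ℕ) (f : ℂ → ℂ) (z : ℂ) : ℂ :=
  ∫ ξ : ℂ,
    Complex.exp (2 * (Real.pi : ℂ) * Complex.I * (((z.re * ξ.re + z.im * ξ.im : ℝ)) : ℂ)) *
      ((starRingEnd ℂ ξ / ξ) ^ n *
        ∫ x : ℂ, Complex.exp (-(2 * (Real.pi : ℂ) * Complex.I *
          (((x.re * ξ.re + x.im * ξ.im : ℝ)) : ℂ))) * f x)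

/-- Let `p ≥ 2`, `n ≥ 1`, `S` a finite set of integers (negative ones included) with `2 n ∉ S`, and
for `k ∈ S` let `f k` be a Schwartz function of angular frequency `k`, that is
`f k (a z) = a ^ k f k z` for `|a| = 1` (`f k (r e^{iθ}) = e^{i k θ} φ_k(r)`).  Put
`F = ∑_{k ∈ S} f k` and `N = |S|`.
* For `n ≥ 2`, `‖T^n F‖_p ≤ N (13 n / 2) ^ (1 - 2/p) ‖F‖_p`.
* The inequality of the question, `‖T^n F‖_p ≤ n ^ (1 - 2/p) (p - 1) ‖F‖_p`, holds when `N ≤ 1` (one
  frequency `k ≠ 2 n`, every `p ≥ 2`), and when `p ≥ 1 + 13 N / 2`. -/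
theorem result (p : ℝ) (hp : 2 ≤ p) (n : ℕ) (hn : 1 ≤ n) (S : Finset ℤ) (hS : (2 * n : ℤ) ∉ S)
    (f : ℤ → SchwartzMap ℂ ℂ)
    (hf : ∀ k ∈ S, ∀ a z : ℂ, ‖a‖ = 1 → f k (a * z) = a ^ k * f k z) :
    (2 ≤ n → eLpNorm (T n fun z => ∑ k ∈ S, f k z) (ENNReal.ofReal p) (volume : Measure ℂ)
        ≤ ENNReal.ofReal (S.card * (13 / 2 * (n : ℝ)) ^ (1 - 2 / p))
          * eLpNorm (fun z => ∑ k ∈ S, f k z) (ENNReal.ofReal p) (volume : Measure ℂ)) ∧
    (S.card ≤ 1 ∨ 1 + 13 / 2 * (S.card : ℝ) ≤ p →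
      eLpNorm (T n fun z => ∑ k ∈ S, f k z) (ENNReal.ofReal p) (volume : Measure ℂ)
        ≤ ENNReal.ofReal ((n : ℝ) ^ (1 - 2 / p) * (p - 1))
          * eLpNorm (fun z => ∑ k ∈ S, f k z) (ENNReal.ofReal p) (volume : Measure ℂ)) := by
  refine ⟨fun h => R223.RX.Many.many n h p hp S hS f hf, fun h => ?_⟩
  rcases eq_or_lt_of_le hn with h1 | h1
  · subst h1
    refine (R223.RY.Ord.one p hp S f).trans ?_
    gcongr
    exact Y282.RB.N.main 1 p le_rfl hp
  · refine (R223.RX.Many.many n h1 p hp S hS f hf).trans ?_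
    exact mul_le_mul_left (ENNReal.ofReal_le_ofReal (R223.RX.Many.cmpD n S.card p hp h h1)) _

end Pool.Agent.Results.MP_3dd6d4_an.AllButOneFrequency
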