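import Pool.Agent.R227.IT9

/-!
# Powers of the Beurling transform for `2 ≤ p ≤ 4` on the extremal angular class

For every `n ≥ 500` and `2 ≤ p ≤ 4` one has `‖T ^ n f‖_p ≤ (9 n) ^ (1 - 2/p) ‖f‖_p` for the functions
`f (r e^{iθ}) = e^{2 n i θ} φ(r)`.  For `p = 4` this is the inequality of the question, and for
`n ≥ 10000` the inequality of the question holds for all `p` in `[3.95, 4]`.
-/

set_option autoImplicit false

open MeasureTheory

namespace Pool.Agent.Results.MP_3dd6d4_an.AngularTwoToFour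

/-- The `n`-th power of the Beurling transform: the Fourier multiplier with symbol
`(conj ξ / ξ) ^ n`, written out with the Fourier kernel `exp(-2 π i x · ξ)`. -/
noncomputable def T (n : ℕ) (f : ℂ → ℂ) (z : ℂ) : ℂ :=
  ∫ ξ : ℂ,
    Complex.exp (2 * (Real.pi : ℂ) * Complex.I * (((z.re * ξ.re + z.im * ξ.im : ℝ)) : ℂ)) *
      ((starRingEnd ℂ ξ / ξ) ^ n *
        ∫ x : ℂ, Complex.exp (-(2 * (Real.pi : ℂ) * Complex.I *
          (((x.re * ξ.re + x.im * ξ.im : ℝ)) : ℂ))) * f x)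

/-- Let `2 ≤ p ≤ 4`, let `n ≥ 500` be an integer and let `f` be a Schwartz function with
`f (a z) = a ^ (2 n) f z` for `|a| = 1` (that is, `f (r e^{iθ}) = e^{2 n i θ} φ(r)`).  Then:
* `‖T ^ n f‖_p ≤ (9 n) ^ (1 - 2 / p) ‖f‖_p`, and
  `(9 n) ^ (1 - 2 / p) ≤ 1.043 n ^ (1 - 2 / p) (p - 1)`;
* if `p = 4`, or if `n ≥ 10000` and `p ≥ 3.95`, then the inequality
  `‖T ^ n f‖_p ≤ n ^ (1 - 2 / p) (p - 1) ‖f‖_p` of the question holds. -/
theorem result (n : ℕ) (p : ℝ) (hn : 500 ≤ n) (hp2 : 2 ≤ p) (hp4 : p ≤ 4) (f : SchwartzMap ℂ ℂ)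
    (hf : ∀ a z : ℂ, ‖a‖ = 1 → f (a * z) = a ^ (2 * n) * f z) :
    eLpNorm (T n f) (ENNReal.ofReal p) (volume : Measure ℂ)
      ≤ ENNReal.ofReal ((9 * (n : ℝ)) ^ (1 - 2 / p))
        * eLpNorm f (ENNReal.ofReal p) (volume : Measure ℂ) ∧
    (9 * (n : ℝ)) ^ (1 - 2 / p) ≤ 1.043 * ((n : ℝ) ^ (1 - 2 / p) * (p - 1)) ∧
    ((p = 4 ∨ (10000 ≤ n ∧ 3.95 ≤ p)) →
      eLpNorm (T n f) (ENNReal.ofReal p) (volume : Measure ℂ)
        ≤ ENNReal.ofReal ((n : ℝ) ^ (1 - 2 / p) * (p - 1))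
          * eLpNorm f (ENNReal.ofReal p) (volume : Measure ℂ)) := by
  refine ⟨R227.IT.schw_nine hn hp2 hp4 f hf, R227.IT.N1 hp2 (by omega), ?_⟩
  rintro (rfl | ⟨h1, h2⟩)
  · have h1 : (n : ℝ) ^ (1 - 2 / (4 : ℝ)) * (4 - 1) = 3 * Real.sqrt n := by
      rw [show (1 - 2 / (4 : ℝ)) = 1 / 2 by norm_num, ← Real.sqrt_eq_rpow]
      ring
    rw [h1]
    exact R227.IT.schw_of (by omega) (by norm_num) (by positivity) (R227.BT.oneD hn) f hf
  · refine (R227.IT.schw_large h1 hp2 hp4 f hf).trans ?_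
    have h3 := R227.IT.N2 (p := p) (by norm_num at h2 ⊢; linarith) hp4 (n := n) (by omega)
    gcongr

end Pool.Agent.Results.MP_3dd6d4_an.AngularTwoToFour
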