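import Pool.Agent.R223.RW.Fin
import Pool.Agent.Y282.RB.K2
import Pool.Agent.Y282.RB.K3

/-!
# The inequality of the question on every angular frequency, for `p ≥ 1000 n ^ 2`

For every `n ≥ 1` and every `p ≥ 1000 n ^ 2` the inequality of the question holds for all the
functions `f (r e^{iθ}) = e^{i k θ} φ(r)`, `k` any integer.

The extremal frequency `k = 2 n`: there `T ^ n` is a chain of `n` first order operators, and the
inequality follows from a pointwise inequality `Star n p` for a quadratic form (starting files,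
where it is proved for `p ≥ 4000 n ^ 5`).  Here it is proved for `p ≥ 1000 n ^ 2`, by a logarithmic
bound of the defect and by a backward recursion with sharp weights.
-/

set_option autoImplicit false

open MeasureTheory

namespace Pool.Agent.Results.MP_3dd6d4_an.EveryFrequencyLargeP

/-- The `n`-th power of the Beurling transform: the Fourier multiplier with symbol
`(conj ξ / ξ) ^ n`, in the literal form of the frozen statement. -/
noncomputable def T (n : ℕ) (f : ℂ → ℂ) (z : ℂ) : ℂ :=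
  ∫ ξ : ℂ,
    Complex.exp (2 * (Real.pi : ℂ) * Complex.I * (((z.re * ξ.re + z.im * ξ.im : ℝ)) : ℂ)) *
      ((starRingEnd ℂ ξ / ξ) ^ n *
        ∫ x : ℂ, Complex.exp (-(2 * (Real.pi : ℂ) * Complex.I *
          (((x.re * ξ.re + x.im * ξ.im : ℝ)) : ℂ))) * f x)

/-- The Pochhammer quotient `(1/q)_n / (1/p)_n`. -/
noncomputable def K (n : ℕ) (p : ℝ) : ℝ :=
  (ascPochhammer ℝ n).eval (1 - 1 / p) / (ascPochhammer ℝ n).eval (1 / p)

/-- For every `n ≥ 1`, every real `p ≥ 1000 n ^ 2`, every integer `k` and every Schwartz function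
`f` of angular frequency `k` (`f (r e^{iθ}) = e^{i k θ} φ(r)`) the inequality of the question holds,
`‖T^n f‖_p ≤ n ^ (1 - 2/p) (p - 1) ‖f‖_p`, and also with the smaller constant `(1/q)_n / (1/p)_n`;
for these functions (already for `k = 2 n`) no constant below `(1/q)_n / (1/p)_n` is admissible. -/
theorem result (n : ℕ) (p : ℝ) (hn : 1 ≤ n) (hp : 1000 * (n : ℝ) ^ 2 ≤ p) :
    (∀ (k : ℤ) (f : SchwartzMap ℂ ℂ), (∀ a z : ℂ, ‖a‖ = 1 → f (a * z) = a ^ k * f z) →
      eLpNorm (T n f) (ENNReal.ofReal p) (volume : Measure ℂ)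
          ≤ ENNReal.ofReal (K n p) * eLpNorm f (ENNReal.ofReal p) (volume : Measure ℂ) ∧
      eLpNorm (T n f) (ENNReal.ofReal p) (volume : Measure ℂ)
          ≤ ENNReal.ofReal ((n : ℝ) ^ (1 - 2 / p) * (p - 1))
            * eLpNorm f (ENNReal.ofReal p) (volume : Measure ℂ)) ∧
    (∀ c : ℝ, c < K n p →
      ∃ f : SchwartzMap ℂ ℂ, HasCompactSupport f ∧
        (∀ a z : ℂ, ‖a‖ = 1 → f (a * z) = a ^ (2 * n) * f z) ∧
        ENNReal.ofReal c * eLpNorm f (ENNReal.ofReal p) (volume : Measure ℂ)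
          < eLpNorm (T n f) (ENNReal.ofReal p) (volume : Measure ℂ)) := by
  have hp2 : 2 ≤ p := R223.RW.Fin.p2 n p hn hp
  have hT : ∀ n f, T n f = Y282.RB.Tn n f := fun n f => rfl
  have hK : K n p = Y282.RB.Cn p n := (Y282.RB.K3.main n p (by linarith)).symm
  have hpos : 0 < Y282.RB.Cn p n := R223.RW.Fin.cpos n p hp2
  have h2 : K n p ≤ (n : ℝ) ^ (1 - 2 / p) * (p - 1) := by
    rw [hK]
    exact Y282.RB.N.main n p hn hp2
  refine ⟨?_, ?_⟩
  · intro k f hf
    have h1 : eLpNorm (T n f) (ENNReal.ofReal p) (volume : Measure ℂ)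
        ≤ ENNReal.ofReal (K n p) * eLpNorm f (ENNReal.ofReal p) (volume : Measure ℂ) := by
      rw [hK]
      exact R223.RW.Fin.all n p hn hp k f hf
    refine ⟨h1, h1.trans ?_⟩
    gcongr
  · intro c hc
    rw [hK] at hc
    obtain ⟨g, hg, hs, hlt⟩ := R223.RW.Fin.sharp n p (max c 0) hn (by linarith)
      (le_max_right _ _) (max_lt hc hpos)
    obtain ⟨f, hf1, hf2, hf3⟩ := Y282.RB.K2.main n g hg hs
    refine ⟨f, hf3, hf2, ?_⟩
    rw [hT, hf1]
    refine lt_of_le_of_lt ?_ hlt
    gcongr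
    exact le_max_left _ _

end Pool.Agent.Results.MP_3dd6d4_an.EveryFrequencyLargeP
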